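import Mathlib

/-!
# Transcendence degree of the base of a fibration in curves
-/

set_option autoImplicit false

namespace Pool.Agent.Y689.SP

open Cardinal
open scoped IntermediateField.algebraAdjoinAdjoin

theorem basis_of_curve {Ω K : Type} [Field Ω] [Field K] [Algebra Ω K] (w : ℕ)
    (htr : Algebra.trdeg Ω K = w) (L : IntermediateField Ω K) (t : K) (ht : Transcendental L t)
    (halg : ∀ b : K, IsAlgebraic (IntermediateField.adjoin L {t}) b) :
    ∃ (n : ℕ) (y : Fin n → L), IsTranscendenceBasis Ω y ∧ n + 1 = w := by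
  have h1 : IsTranscendenceBasis L (fun _ : Unit => t) := by
    rw [isTranscendenceBasis_iff_algebraicIndependent_isAlgebraic]
    refine ⟨algebraicIndependent_unique_type_iff.2 ht, ?_⟩
    have h2 : Set.range (fun _ : Unit => t) = {t} := by simp
    rw [h2]
    have h3 : Algebra.IsAlgebraic (IntermediateField.adjoin L {t}) K := ⟨halg⟩
    exact (IsFractionRing.comap_isAlgebraic_iff (A := Algebra.adjoin L {t})
      (K := IntermediateField.adjoin L {t}) (C := K)).2 h3
  have h4 : Algebra.trdeg L K = 1 := by
    have := h1.cardinalMk_eq_trdeg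
    rw [← this]
    simp
  have h5 : Algebra.trdeg Ω L + Algebra.trdeg L K = Algebra.trdeg Ω K :=
    trdeg_add_eq Ω L
  rw [h4, htr] at h5
  obtain ⟨s, hs⟩ := exists_isTranscendenceBasis Ω L
  have h6 := hs.cardinalMk_eq_trdeg
  have h7 : #s < ℵ₀ := by
    rw [h6]
    have : Algebra.trdeg Ω L ≤ (w : Cardinal) := by
      rw [← h5]
      exact self_le_add_right _ _
    exact this.trans_lt (natCast_lt_aleph0)
  have : Finite s := lt_aleph0_iff_finite.1 h7
  let _ : Fintype s := Fintype.ofFinite s
  have e := Fintype.equivFin s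
  refine ⟨Fintype.card s, fun i => (e.symm i : L), ?_, ?_⟩
  · exact (isTranscendenceBasis_equiv' e.symm rfl).2 hs
  · rw [← h6, mk_fintype] at h5
    exact_mod_cast h5

end Pool.Agent.Y689.SP
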