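import Pool.Agent.Y742.SP.Stm
import Pool.Agent.Y689.SP.Fin0

/-!
# Project SP: assembly (helper689)
-/

set_option autoImplicit false

namespace Pool.Agent.Y689.SP

open FF MvPolynomial Pool.Agent.W602.GT Pool.Agent.Y742.GG Pool.Agent.Y742.SP

theorem sSpecial (h5 : SDouble) (h6 : STorsor) (h7 : SForm) : SSpecial := by
  intro Ω K I _ _ _ _ w hfg htr L hL hinv p hp hbog
  obtain ⟨θ, hθ, N, hN, f, hlog, hreg, hf0, hind⟩ := hbog
  have key : ∀ (i : I) (j : Fin (p + 1)), IsAlgebraic (L i) (f j / f 0) := by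
    intro i
    have hc : IsCurve (L i) ∧ ∃ D : Derivation Ω K K, D ≠ 0 ∧ (∀ a ∈ L i, D a = 0) ∧
        ∀ P : Place Ω K, TrivOn P (L i) → GoodAt P (L i) D := by
      rcases hL i with h | h
      · exact h5 Ω K (L i) h
      · exact h6 Ω K (L i) h hfg
    obtain ⟨hcur, D, hD, hDL, hgood⟩ := hc
    have hcur' := hcur
    obtain ⟨t, S, ht, halg, -⟩ := hcur'
    obtain ⟨n, y, hy, hn⟩ := basis_of_curve w htr (L i) t ht halg
    subst hn
    exact h7 Ω K (L i) n y hy hcur D hD hDL hgood p θ hθ N f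
      (fun P hP E hE j => hreg P hP not_false E hE j) hf0
  have h1 : IsAlgebraic Ω (f (Fin.succ ⟨0, by omega⟩) / f 0) := hinv _ fun i => key i _
  exact hind.transcendental ⟨0, by omega⟩ h1

end Pool.Agent.Y689.SP
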